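import Pool.Agent.Work.MP_223b32_t3.Interface
import Pool.Agent.Work.MP_223b32_tc_helper15.SUM

/-!
# SUMR: the union bound
-/

namespace Pool.Agent.Work.T3

open Finset Polynomial TensorProduct Pool.Agent.Work.MP_223b32_ag Pool.Agent.Work.TC

namespace SUMR

variable {F K : Type} [Field F] [Fintype F] [Field K] [Fintype K] [Algebra F K]

theorem card_tuples {T A B J N : ℕ} :
    (Nat.card {a : Fin T → K // (∀ t, a t ∉ (algebraMap F K).range) ∧ Bad F A B J N a} : ℝ) ≤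
      (Nat.card {a : K // a ∉ (algebraMap F K).range} : ℝ) ^ T := by
  classical
  have h : Nat.card {a : Fin T → K // (∀ t, a t ∉ (algebraMap F K).range) ∧
      Bad F A B J N a} ≤ Nat.card (Fin T → {a : K // a ∉ (algebraMap F K).range}) := by
    refine Nat.card_le_card_of_injective (fun a t => ⟨a.1 t, a.2.1 t⟩) ?_
    intro a b hab
    refine Subtype.ext (funext fun t => ?_)
    exact congrArg Subtype.val (congrFun hab t)
  rw [Nat.card_fun, Nat.card_eq_fintype_card (α := Fin T), Fintype.card_fin] at h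
  exact_mod_cast h

end SUMR

open SUMR TC.SUM in
theorem stmt_SUMR (hONER : Stmt_ONER) (hGAM : Stmt_GAM) (hLIN : Stmt_LIN)
    (hCOUNT : Stmt_COUNT) : Stmt_SUMR := by
  intro F K _ _ _ _ _ hF n hn hn2 hfin T A0 B J hT hB hJ
  classical
  set m := orderOf (2 : ZMod n) with hmdef
  set A : ℝ := (Nat.card {a : K // a ∉ (algebraMap F K).range} : ℝ) with hA
  set q := Fintype.card F with hq
  set w := (A0 + 2) * (B + 1) ^ 2 with hw
  have hq3 : 3 ≤ q := three_le hF
  have hA0 : 0 ≤ A := Nat.cast_nonneg _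
  have hE : (0 : ℝ) < 2 ^ (-(m : ℝ) / (8 * J)) := Real.rpow_pos_of_pos (by norm_num) _
  have hnT : (1 : ℝ) ≤ ((n : ℝ) * T) ^ (2 * J) := by
    have h1 : (1 : ℝ) ≤ (n : ℝ) * T := by
      have : 1 ≤ n * T := Nat.mul_pos hn.pos hT
      exact_mod_cast this
    exact one_le_pow₀ h1
  have hqw : (1 : ℝ) ≤ (q : ℝ) ^ w := by
    have h1 : (1 : ℝ) ≤ (q : ℝ) := by
      have : 1 ≤ q := by omega
      exact_mod_cast this
    exact one_le_pow₀ h1
  have hJ1 : (1 : ℝ) ≤ J := by exact_mod_cast hJ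
  rcases le_or_gt m (12 * J) with hm | hm
  · refine SUMR.card_tuples.trans ?_
    have h2 : (2 : ℝ) ^ (-(2 : ℝ)) ≤ 2 ^ (-(m : ℝ) / (8 * J)) := by
      refine Real.rpow_le_rpow_of_exponent_le (by norm_num) ?_
      have h3 : (m : ℝ) ≤ 12 * J := by exact_mod_cast hm
      have h4 : (m : ℝ) / (8 * J) ≤ 2 := by
        rw [div_le_iff₀ (by positivity)]
        linarith
      have h8 : -(m : ℝ) / (8 * J) = -((m : ℝ) / (8 * J)) := by ring
      rw [h8]
      linarith
    have h3 : (2 : ℝ) ^ (-(2 : ℝ)) = 1 / 4 := by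
      rw [Real.rpow_neg (by norm_num)]
      norm_num
    rw [h3] at h2
    have h1 : (1 : ℝ) ≤ 40 * J * (q : ℝ) ^ w * ((n : ℝ) * T) ^ (2 * J) *
        2 ^ (-(m : ℝ) / (8 * J)) := by
      calc (1 : ℝ) ≤ 40 * 1 * 1 * 1 * (1 / 4) := by norm_num
        _ ≤ 40 * J * (q : ℝ) ^ w * ((n : ℝ) * T) ^ (2 * J) * 2 ^ (-(m : ℝ) / (8 * J)) := by
            gcongr
    calc A ^ T = 1 * A ^ T := (one_mul _).symm
      _ ≤ _ := mul_le_mul_of_nonneg_right h1 (by positivity)
  · have hm0 : m ≠ 0 := by omega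
    have hfG : Finite (GaloisField 2 m) := inferInstance
    let iG : Fintype (GaloisField 2 m) := Fintype.ofFinite _
    have hG : Fintype.card (GaloisField 2 m) = 2 ^ m := by
      rw [← Nat.card_eq_fintype_card]
      exact GaloisField.card 2 m hm0
    obtain ⟨Γ, hΓ1, hΓ2⟩ := hGAM q A0 B hq3
    obtain ⟨c', hc'⟩ := hONER F K hF n hn hn2 hfin (GaloisField 2 m) hG T A0 B J hB Γ hΓ1
    let R : Finset (GaloisField 2 m) := (Polynomial.nthRoots n 1).toFinset
    have hR : R.card ≤ n :=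
      (Multiset.toFinset_card_le _).trans (Polynomial.card_nthRoots n 1)
    let Fam : Finset (Fin T → Finset (GaloisField 2 m)) :=
      Finset.univ.filter fun I => (∃ t, (I t).Nonempty) ∧ ∑ t, (I t).card ≤ 2 * J ∧
        ∀ t, I t ⊆ R
    have hFam : Fam.card ≤ (T * R.card) ^ (2 * J) := count_fam T (2 * J) R
    let Fam' := Fam.filter fun I => ∀ t, Adm n (I t)
    have hFam' : Fam'.card ≤ (n * T) ^ (2 * J) := by
      refine (Finset.card_filter_le _ _).trans (hFam.trans ?_)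
      refine Nat.pow_le_pow_left ?_ _
      rw [mul_comm]
      exact Nat.mul_le_mul_right _ hR
    let Ind : Finset (ℂ × ℕ × (Fin T → Finset (GaloisField 2 m))) :=
      Γ ×ˢ (Finset.range (2 * J) ×ˢ Fam')
    have hInd : (Ind.card : ℝ) ≤ (q : ℝ) ^ w * (2 * J * ((n : ℝ) * T) ^ (2 * J)) := by
      have h1 : Ind.card ≤ q ^ w * (2 * J * (n * T) ^ (2 * J)) := by
        have h0 : Ind.card = Γ.card * (2 * J * Fam'.card) := by
          simp only [Ind, Finset.card_product, Finset.card_range]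
        rw [h0]
        exact Nat.mul_le_mul hΓ2 (Nat.mul_le_mul_left _ hFam')
      exact_mod_cast h1
    let S : (ℂ × ℕ × (Fin T → Finset (GaloisField 2 m))) → Finset (Fin T → K) := fun x =>
      Finset.univ.filter fun a => (∀ t, a t ∉ (algebraMap F K).range) ∧
        ∑ t, ∑ k ∈ Icc 1 (n / 2), (dl F (a t) k : GaloisField 2 m) * cc n (x.2.2 t) k =
          c' x.1 x.2.1 x.2.2
    have hS : ∀ x ∈ Ind, ((S x).card : ℝ) ≤ 18 * 2 ^ (-(m : ℝ) / (8 * J)) * A ^ T := by
      intro x hx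
      obtain ⟨-, hx2⟩ := Finset.mem_product.1 hx
      obtain ⟨-, hI⟩ := Finset.mem_product.1 hx2
      obtain ⟨hI1, hI2⟩ := Finset.mem_filter.1 hI
      obtain ⟨-, ⟨t₀, hne⟩, hL, -⟩ := Finset.mem_filter.1 hI1
      have h := one_fam hLIN hCOUNT hF hn hn2 hfin hG hT hJ hm x.2.2 t₀ hne hL hI2
        (c' x.1 x.2.1 x.2.2)
      have e : Nat.card {a : Fin T → K // (∀ t, a t ∉ (algebraMap F K).range) ∧
          ∑ t, ∑ k ∈ Icc 1 (n / 2), (dl F (a t) k : GaloisField 2 m) * cc n (x.2.2 t) k =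
            c' x.1 x.2.1 x.2.2} = (S x).card := by
        rw [Nat.card_eq_fintype_card, Fintype.card_subtype]
      rw [e] at h
      exact h
    have hbad : Nat.card {a : Fin T → K // (∀ t, a t ∉ (algebraMap F K).range) ∧
        Bad F A0 B J (n - 1) a} ≤ ∑ x ∈ Ind, (S x).card := by
      rw [Nat.card_eq_fintype_card, Fintype.card_subtype]
      refine le_trans (Finset.card_le_card ?_) Finset.card_biUnion_le
      intro a ha
      obtain ⟨-, ha1, ha2⟩ := Finset.mem_filter.1 ha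
      obtain ⟨γ, hγ, v, I, hv, hI1, hI2, hI3, hI4⟩ := hc' a ha1 ha2
      refine Finset.mem_biUnion.2 ⟨(γ, v, I), ?_, ?_⟩
      · refine Finset.mem_product.2 ⟨hγ, Finset.mem_product.2 ⟨?_, ?_⟩⟩
        · exact Finset.mem_range.2 (lt_of_lt_of_le Nat.lt_two_pow_self hv)
        · refine Finset.mem_filter.2 ⟨Finset.mem_filter.2 ⟨Finset.mem_univ _, hI1, hI2, ?_⟩, hI3⟩
          intro t z hz
          have hz' := (hI3 t z hz).1
          exact Multiset.mem_toFinset.2 ((Polynomial.mem_nthRoots hn.pos).2 hz')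
      · exact Finset.mem_filter.2 ⟨Finset.mem_univ _, ha1, hI4⟩
    calc (Nat.card {a : Fin T → K // (∀ t, a t ∉ (algebraMap F K).range) ∧
        Bad F A0 B J (n - 1) a} : ℝ) ≤ ∑ x ∈ Ind, ((S x).card : ℝ) := by exact_mod_cast hbad
      _ ≤ ∑ _x ∈ Ind, 18 * 2 ^ (-(m : ℝ) / (8 * J)) * A ^ T := Finset.sum_le_sum hS
      _ = Ind.card * (18 * 2 ^ (-(m : ℝ) / (8 * J)) * A ^ T) := by
          rw [Finset.sum_const, nsmul_eq_mul]
      _ ≤ ((q : ℝ) ^ w * (2 * J * ((n : ℝ) * T) ^ (2 * J))) *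
            (18 * 2 ^ (-(m : ℝ) / (8 * J)) * A ^ T) :=
          mul_le_mul_of_nonneg_right hInd (by positivity)
      _ = 36 * J * (q : ℝ) ^ w * ((n : ℝ) * T) ^ (2 * J) * 2 ^ (-(m : ℝ) / (8 * J)) *
            A ^ T := by ring
      _ ≤ 40 * J * (q : ℝ) ^ w * ((n : ℝ) * T) ^ (2 * J) * 2 ^ (-(m : ℝ) / (8 * J)) *
            A ^ T := by
          gcongr
          norm_num

end Pool.Agent.Work.T3
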